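import Mathlib

open Finset Polynomial

namespace Pool.Agent.Results.MP_c1403d_pr.LeadingCoefficients

/-- The algebra `ℚ[z, b, a, a⁻¹]` of polynomials in `z`, `b` and Laurent polynomials in `a`;
the monomial `z ^ j * b ^ k * a ^ e` is the basis vector with index `(j, k, e)`. -/
abbrev A : Type := AddMonoidAlgebra ℚ (ℕ × ℕ × ℤ)

/-- The monomial `z ^ j * b ^ k * a ^ e`. -/
noncomputable def mono (j k : ℕ) (e : ℤ) : A := AddMonoidAlgebra.single (j, k, e) 1

/-- The indeterminate `z`. -/
noncomputable def z : A := mono 1 0 0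

/-- The indeterminate `b`. -/
noncomputable def b : A := mono 0 1 0

/-- The indeterminate `a`. -/
noncomputable def a : A := mono 0 0 1

/-- The inverse `a⁻¹` of the indeterminate `a`. -/
noncomputable def aInv : A := mono 0 0 (-1)

lemma mono_mul (j k j' k' : ℕ) (e e' : ℤ) :
    mono j k e * mono j' k' e' = mono (j + j') (k + k') (e + e') := by
  simp [mono, AddMonoidAlgebra.single_mul_single]

lemma a_mul_aInv : a * aInv = 1 := by
  simp [a, aInv, mono_mul]
  rfl

/-- The `ℚ`-linear map with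
`z^j b^k a^e ↦ j z^(j-1) b^k a^e + k z^(j+1) b^(k-1) a^(e+1) + e z^j b^(k+1) a^(e-1)`. -/
noncomputable def DLin : A →ₗ[ℚ] A :=
  (Finsupp.linearCombination ℚ (fun m : ℕ × ℕ × ℤ =>
    (m.1 : ℚ) • mono (m.1 - 1) m.2.1 m.2.2
      + (m.2.1 : ℚ) • mono (m.1 + 1) (m.2.1 - 1) (m.2.2 + 1)
      + (m.2.2 : ℚ) • mono m.1 (m.2.1 + 1) (m.2.2 - 1))).comp
    (AddMonoidAlgebra.coeffLinearEquiv ℚ).toLinearMap

lemma DLin_mono (j k : ℕ) (e : ℤ) : DLin (mono j k e) =
    (j : ℚ) • mono (j - 1) k e + (k : ℚ) • mono (j + 1) (k - 1) (e + 1)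
      + (e : ℚ) • mono j (k + 1) (e - 1) := by
  simp [DLin, mono]

lemma mono_pred_left (j i k : ℕ) (e : ℤ) :
    (j : ℚ) • mono (i + (j - 1)) k e = (j : ℚ) • mono (i + j - 1) k e := by
  rcases j with _ | j
  · simp
  · rfl

lemma mono_pred_right (j i k : ℕ) (e : ℤ) :
    (k : ℚ) • mono j (i + (k - 1)) e = (k : ℚ) • mono j (i + k - 1) e := by
  rcases k with _ | k
  · simp
  · rfl

lemma DLin_leibniz_mono (j k j' k' : ℕ) (e e' : ℤ) :
    DLin (mono j k e * mono j' k' e') =
      mono j k e * DLin (mono j' k' e') + mono j' k' e' * DLin (mono j k e) := by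
  rw [mono_mul, DLin_mono, DLin_mono, DLin_mono]
  simp only [mul_add, mul_smul_comm, mono_mul]
  have h1 : (j' : ℚ) • mono (j + (j' - 1)) (k + k') (e + e')
      = (j' : ℚ) • mono (j + j' - 1) (k + k') (e + e') := mono_pred_left _ _ _ _
  have h2 : (j : ℚ) • mono (j' + (j - 1)) (k' + k) (e' + e)
      = (j : ℚ) • mono (j + j' - 1) (k + k') (e + e') := by
    rw [mono_pred_left, add_comm j' j, add_comm k' k, add_comm e' e]
  have h3 : (k' : ℚ) • mono (j + (j' + 1)) (k + (k' - 1)) (e + (e' + 1))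
      = (k' : ℚ) • mono (j + j' + 1) (k + k' - 1) (e + e' + 1) := by
    rw [mono_pred_right]; congr 2 <;> ring
  have h4 : (k : ℚ) • mono (j' + (j + 1)) (k' + (k - 1)) (e' + (e + 1))
      = (k : ℚ) • mono (j + j' + 1) (k + k' - 1) (e + e' + 1) := by
    rw [mono_pred_right, add_comm k' k]
    congr 2 <;> ring
  have h5 : (e' : ℚ) • mono (j + j') (k + (k' + 1)) (e + (e' - 1))
      = (e' : ℚ) • mono (j + j') (k + k' + 1) (e + e' - 1) := by
    congr 2; ring
  have h6 : (e : ℚ) • mono (j' + j) (k' + (k + 1)) (e' + (e - 1))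
      = (e : ℚ) • mono (j + j') (k + k' + 1) (e + e' - 1) := by
    congr 2 <;> ring
  rw [h1, h2, h3, h4, h5, h6]
  push_cast
  simp only [add_smul]
  abel

lemma A_induction {P : A → Prop} (x : A) (hz : P 0) (hadd : ∀ x y, P x → P y → P (x + y))
    (hsmul : ∀ (q : ℚ) x, P x → P (q • x)) (hm : ∀ j k e, P (mono j k e)) : P x := by
  induction x using AddMonoidAlgebra.induction_linear with
  | zero => exact hz
  | add x y hx hy => exact hadd x y hx hy
  | single m r =>
    have : (AddMonoidAlgebra.single m r : A) = r • mono m.1 m.2.1 m.2.2 := by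
      simp [mono]
    rw [this]
    exact hsmul _ _ (hm _ _ _)

lemma DLin_leibniz (x y : A) : DLin (x * y) = x * DLin y + y * DLin x := by
  induction x using A_induction with
  | hz => simp
  | hadd x x' hx hx' => rw [add_mul, map_add, hx, hx', map_add]; ring
  | hsmul q x hx => rw [smul_mul_assoc, map_smul, hx, map_smul]; simp [smul_add]
  | hm j k e =>
    induction y using A_induction with
    | hz => simp
    | hadd y y' hy hy' => rw [mul_add, map_add, hy, hy', map_add]; ring
    | hsmul q y hy => rw [mul_smul_comm, map_smul, hy, map_smul]; simp [smul_add]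
    | hm j' k' e' => exact DLin_leibniz_mono _ _ _ _ _ _

/-- The derivation `D` of `A` with `D z = 1`, `D a = b`, `D b = z a`. -/
noncomputable def D : Derivation ℚ A A :=
  Derivation.mk' DLin (fun x y => by simpa using DLin_leibniz x y)

lemma D_z : D z = 1 := by
  change DLin (mono 1 0 0) = 1
  rw [DLin_mono]; simp; rfl

lemma D_a : D a = b := by
  change DLin (mono 0 0 1) = mono 0 1 0
  rw [DLin_mono]; simp

lemma D_b : D b = z * a := by
  change DLin (mono 0 1 0) = mono 1 0 0 * mono 0 0 1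
  rw [DLin_mono, mono_mul]; simp

/-- `P n = a⁻¹ D^n (a⁻¹)`. -/
noncomputable def P (n : ℕ) : A := aInv * (⇑D)^[n] aInv

/-- `c n j k` is the coefficient of `z^j b^k a^(-(k+2))` in `a⁻¹ D^n (a⁻¹)`. -/
noncomputable def c (n j k : ℕ) : ℚ := (P n).coeff (j, k, -((k : ℤ) + 2))

/-- The space of formal linear combinations of the symbols `[j, k, l]`. -/
abbrev Sym : Type := (ℕ × ℕ × ℕ) →₀ ℚ

/-- The formal symbol `[j, k, l]`. -/
noncomputable def sym (j k l : ℕ) : Sym := Finsupp.single (j, k, l) 1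

/-- The reduction `R [j, k, l]`; the terms with `j = 0` in front vanish, as `[j, k, l] = 0`
for negative `j`. -/
noncomputable def R : ℕ → ℕ → ℕ → Sym
  | j, 0, l => sym j 0 l
  | j, 1, l => ((j : ℚ) / ((l : ℚ) - 1)) • R (j - 1) 0 (l - 1)
  | j, k + 2, l => ((j : ℚ) / ((l : ℚ) - 1)) • R (j - 1) (k + 1) (l - 1)
      + (((k + 1 : ℕ) : ℚ) / ((l : ℚ) - 1)) • R (j + 1) k (l - 2)

/-- `B n i` is the coefficient of `[i, 0, 2]` in `∑_{j,k} c n j k R [j, k, k + 2]`. -/
noncomputable def bCoeff (n i : ℕ) : ℚ :=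
  (∑ᶠ p : ℕ × ℕ, c n p.1 p.2 • R p.1 p.2 (p.2 + 2)) (i, 0, 2)

/-! ### The recursion for `P n` -/

lemma D_mono (j k : ℕ) (e : ℤ) : D (mono j k e) =
    (j : ℚ) • mono (j - 1) k e + (k : ℚ) • mono (j + 1) (k - 1) (e + 1)
      + (e : ℚ) • mono j (k + 1) (e - 1) := DLin_mono j k e

lemma P_succ (n : ℕ) : P (n + 1) = D (P n) + aInv * b * P n := by
  have h : (⇑D)^[n] aInv = a * P n := by
    rw [P, ← mul_assoc, a_mul_aInv, one_mul]
  rw [P, Function.iterate_succ_apply', h, Derivation.leibniz, D_a]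
  simp only [smul_eq_mul]
  have := a_mul_aInv
  linear_combination (D (P n)) * this

/-- The embedding of `ℕ × ℕ →₀ ℚ` sending `(j, k)` to `z^j b^k a^(-(k+2))`. -/
noncomputable def Φ : ((ℕ × ℕ) →₀ ℚ) →ₗ[ℚ] A :=
  Finsupp.linearCombination ℚ (fun p : ℕ × ℕ => mono p.1 p.2 (-((p.2 : ℤ) + 2)))

/-- The recursion operator. -/
noncomputable def T : ((ℕ × ℕ) →₀ ℚ) →ₗ[ℚ] ((ℕ × ℕ) →₀ ℚ) :=
  Finsupp.linearCombination ℚ (fun p : ℕ × ℕ =>
    (p.1 : ℚ) • Finsupp.single (p.1 - 1, p.2) 1 + (p.2 : ℚ) • Finsupp.single (p.1 + 1, p.2 - 1) 1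
      - ((p.2 : ℚ) + 1) • Finsupp.single (p.1, p.2 + 1) 1)

lemma Φ_single (j k : ℕ) : Φ (Finsupp.single (j, k) 1) = mono j k (-((k : ℤ) + 2)) := by
  simp [Φ]

lemma T_single (j k : ℕ) : T (Finsupp.single (j, k) 1) =
    (j : ℚ) • Finsupp.single (j - 1, k) 1 + (k : ℚ) • Finsupp.single (j + 1, k - 1) 1
      - ((k : ℚ) + 1) • Finsupp.single (j, k + 1) 1 := by
  simp [T]

lemma Φ_T (f : (ℕ × ℕ) →₀ ℚ) : D (Φ f) + aInv * b * Φ f = Φ (T f) := by
  induction f using Finsupp.induction_linear with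
  | zero => simp
  | add f g hf hg => rw [map_add, map_add, map_add, map_add, ← hf, ← hg]; ring
  | single p q =>
    obtain ⟨j, k⟩ := p
    have h1 : (Finsupp.single (j, k) q : (ℕ × ℕ) →₀ ℚ) = q • Finsupp.single (j, k) 1 := by simp
    rw [h1, LinearMap.map_smul, LinearMap.map_smul, LinearMap.map_smul, Derivation.map_smul,
      mul_smul_comm, ← smul_add]
    congr 1
    rw [T_single, Φ_single, D_mono, map_sub, map_add, LinearMap.map_smul, LinearMap.map_smul,
      LinearMap.map_smul, Φ_single,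
      Φ_single, Φ_single, aInv, b, mono_mul, mono_mul]
    have e1 : mono (0 + 0 + j) (0 + 1 + k) (-1 + 0 + -((k : ℤ) + 2))
        = mono j (k + 1) (-(((k + 1 : ℕ) : ℤ) + 2)) := by
      congr 1
      · ring
      · ring
      · omega
    have e2 : mono j (k + 1) (-((k : ℤ) + 2) - 1) = mono j (k + 1) (-(((k + 1 : ℕ) : ℤ) + 2)) := by
      congr 1
    have e3 : (k : ℚ) • mono (j + 1) (k - 1) (-((k : ℤ) + 2) + 1)
        = (k : ℚ) • mono (j + 1) (k - 1) (-(((k - 1 : ℕ) : ℤ) + 2)) := by
      rcases k with _ | k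
      · simp
      · congr 2
    rw [e1, e2, e3]
    push_cast
    module

/-- The starting element `(0, 0)`. -/
noncomputable def δ : (ℕ × ℕ) →₀ ℚ := Finsupp.single (0, 0) 1

lemma P_eq (n : ℕ) : P n = Φ ((⇑T)^[n] δ) := by
  induction n with
  | zero =>
    simp only [P, Function.iterate_zero, id_eq, δ, Φ_single, aInv, mono_mul]
    rfl
  | succ n ih => rw [P_succ, ih, Φ_T, Function.iterate_succ_apply']

lemma coeff_Φ (f : (ℕ × ℕ) →₀ ℚ) (j k : ℕ) :
    (Φ f).coeff (j, k, -((k : ℤ) + 2)) = f (j, k) := by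
  induction f using Finsupp.induction_linear with
  | zero => simp
  | add f g hf hg => rw [map_add, AddMonoidAlgebra.coeff_add, Finsupp.add_apply, hf, hg,
      Finsupp.add_apply]
  | single p q =>
    obtain ⟨j', k'⟩ := p
    have h1 : (Finsupp.single (j', k') q : (ℕ × ℕ) →₀ ℚ) = q • Finsupp.single (j', k') 1 := by
      simp
    rw [h1, map_smul, Φ_single, AddMonoidAlgebra.coeff_smul, Finsupp.smul_apply,
      Finsupp.smul_apply, mono, AddMonoidAlgebra.coeff_single]
    congr 1
    by_cases h : (j', k') = (j, k)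
    · obtain ⟨rfl, rfl⟩ := Prod.mk.inj h
      simp
    · rw [Finsupp.single_eq_of_ne, Finsupp.single_eq_of_ne]
      · exact fun h' => h h'.symm
      · intro h'
        apply h
        simp only [Prod.mk.injEq] at h'
        simp [h'.1, h'.2.1]

lemma c_eq (n j k : ℕ) : c n j k = ((⇑T)^[n] δ) (j, k) := by
  rw [c, P_eq, coeff_Φ]

/-- The functional `f ↦ ∑ f (j, k) * (coefficient of [i, 0, 2] in R [j, k, k+2])`. -/
noncomputable def ρ (i : ℕ) : ((ℕ × ℕ) →₀ ℚ) →ₗ[ℚ] ℚ :=
  Finsupp.linearCombination ℚ (fun p : ℕ × ℕ => R p.1 p.2 (p.2 + 2) (i, 0, 2))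

lemma ρ_single (i j k : ℕ) : ρ i (Finsupp.single (j, k) 1) = R j k (k + 2) (i, 0, 2) := by
  simp [ρ]

lemma bCoeff_eq (n i : ℕ) : bCoeff n i = ρ i ((⇑T)^[n] δ) := by
  set f := (⇑T)^[n] δ with hf
  have h1 : (∑ᶠ p : ℕ × ℕ, c n p.1 p.2 • R p.1 p.2 (p.2 + 2))
      = ∑ p ∈ f.support, c n p.1 p.2 • R p.1 p.2 (p.2 + 2) := by
    apply finsum_eq_sum_of_support_subset
    intro p hp
    rw [Function.mem_support] at hp
    rw [Finset.mem_coe, Finsupp.mem_support_iff]
    intro h0
    apply hp
    rw [c_eq]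
    change f (p.1, p.2) • R p.1 p.2 (p.2 + 2) = 0
    rw [show f (p.1, p.2) = 0 from h0, zero_smul]
  rw [bCoeff, h1, Finsupp.finsetSum_apply, ρ, Finsupp.linearCombination_apply, Finsupp.sum]
  apply Finset.sum_congr rfl
  intro p _
  rw [Finsupp.smul_apply, c_eq]

/-! ### The reduction in top weight -/

lemma R_low (k : ℕ) : ∀ j l i : ℕ, 2 * j + k < 2 * i → R j k l (i, 0, 2) = 0 := by
  induction k using Nat.strong_induction_on with
  | _ k ih =>
    intro j l i h
    match k, ih, h with
    | 0, _, h =>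
      rw [R, sym, Finsupp.single_eq_of_ne]
      intro h'
      simp only [Prod.mk.injEq] at h'
      omega
    | 1, ih, h =>
      rw [R, Finsupp.smul_apply, ih 0 (by omega) _ _ _ (by omega), smul_zero]
    | k + 2, ih, h =>
      rw [R, Finsupp.add_apply, Finsupp.smul_apply, Finsupp.smul_apply,
        ih (k + 1) (by omega) _ _ _ (by omega), ih k (by omega) _ _ _ (by omega)]
      simp

lemma R_top (k : ℕ) : ∀ j i : ℕ, 2 * j + k = 2 * i →
    R j k (k + 2) (i, 0, 2) = 1 / ((k : ℚ) + 1) := by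
  induction k using Nat.strong_induction_on with
  | _ k ih =>
    intro j i h
    match k, ih, h with
    | 0, _, h =>
      have : j = i := by omega
      subst this
      rw [R, sym]
      simp
    | 1, _, h => omega
    | k + 2, ih, h =>
      rw [R, Finsupp.add_apply, Finsupp.smul_apply, Finsupp.smul_apply]
      have h1 : ((j : ℚ) / (((k + 2 + 2 : ℕ) : ℚ) - 1)) •
          (R (j - 1) (k + 1) (k + 2 + 2 - 1)) (i, 0, 2) = 0 := by
        rcases j with _ | j
        · simp
        · rw [R_low _ _ _ _ (by omega), smul_zero]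
      rw [h1, show k + 2 + 2 - 2 = k + 2 from rfl, ih k (by omega) (j + 1) i (by omega)]
      push_cast
      have h2 : (k : ℚ) + 1 ≠ 0 := by positivity
      have h3 : (k : ℚ) + 2 + 2 - 1 ≠ 0 := by
        have : (k : ℚ) + 2 + 2 - 1 = (k : ℚ) + 3 := by ring
        rw [this]; positivity
      have h4 : (k : ℚ) + 2 + 1 ≠ 0 := by positivity
      rw [smul_eq_mul]
      field_simp
      ring

/-! ### Top weight parts as polynomials -/

/-- The part of weight `2 j + k = n`, as a polynomial in `u = b / a`. -/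
noncomputable def Θ (n : ℕ) : ((ℕ × ℕ) →₀ ℚ) →ₗ[ℚ] ℚ[X] :=
  Finsupp.linearCombination ℚ (fun p : ℕ × ℕ => if 2 * p.1 + p.2 = n then (X : ℚ[X]) ^ p.2 else 0)

lemma Θ_single (n j k : ℕ) : Θ n (Finsupp.single (j, k) 1) =
    if 2 * j + k = n then (X : ℚ[X]) ^ k else 0 := by
  simp [Θ]

/-- The elements of weight at most `n`. -/
noncomputable def W (n : ℕ) : Submodule ℚ ((ℕ × ℕ) →₀ ℚ) :=
  Finsupp.supported ℚ ℚ {p : ℕ × ℕ | 2 * p.1 + p.2 ≤ n}

lemma W_induction {n : ℕ} {Q : ((ℕ × ℕ) →₀ ℚ) → Prop} {f : (ℕ × ℕ) →₀ ℚ} (hf : f ∈ W n)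
    (hz : Q 0) (hadd : ∀ f g, Q f → Q g → Q (f + g)) (hsmul : ∀ (q : ℚ) f, Q f → Q (q • f))
    (hs : ∀ j k, 2 * j + k ≤ n → Q (Finsupp.single (j, k) 1)) : Q f := by
  rw [W, Finsupp.supported_eq_span_single] at hf
  refine Submodule.span_induction (p := fun x _ => Q x) ?_ hz (fun x y _ _ => hadd x y)
    (fun q x _ => hsmul q x) hf
  rintro x ⟨p, hp, rfl⟩
  exact hs p.1 p.2 hp

lemma single_mem_W {n j k : ℕ} (h : 2 * j + k ≤ n) : Finsupp.single (j, k) (1 : ℚ) ∈ W n :=
  Finsupp.single_mem_supported ℚ _ h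

lemma T_mem_W {n : ℕ} {f : (ℕ × ℕ) →₀ ℚ} (hf : f ∈ W n) : T f ∈ W (n + 1) := by
  refine W_induction (Q := fun f => T f ∈ W (n + 1)) hf ?_ ?_ ?_ ?_
  · simp
  · intro f g hf hg
    rw [map_add]; exact Submodule.add_mem _ hf hg
  · intro q f hf
    rw [map_smul]; exact Submodule.smul_mem _ _ hf
  · intro j k h
    rw [T_single]
    refine Submodule.sub_mem _ (Submodule.add_mem _ (Submodule.smul_mem _ _ ?_) ?_)
      (Submodule.smul_mem _ _ ?_)
    · exact single_mem_W (by omega)
    · rcases k with _ | k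
      · simp
      · exact Submodule.smul_mem _ _ (single_mem_W (by simp only [Nat.add_sub_cancel]; omega))
    · exact single_mem_W (by omega)

/-- The operator `E ↦ (1 - u^2) E' - u E`. -/
noncomputable def Dop (E : ℚ[X]) : ℚ[X] := (1 - X ^ 2) * derivative E - X * E

lemma Θ_T {n : ℕ} {f : (ℕ × ℕ) →₀ ℚ} (hf : f ∈ W n) : Θ (n + 1) (T f) = Dop (Θ n f) := by
  refine W_induction (Q := fun f => Θ (n + 1) (T f) = Dop (Θ n f)) hf ?_ ?_ ?_ ?_
  · simp [Dop]
  · intro f g hf hg
    rw [map_add, map_add, hf, hg, map_add]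
    simp only [Dop, derivative_add]; ring
  · intro q f hf
    rw [map_smul, map_smul, hf, map_smul]
    simp only [Dop, smul_eq_C_mul, derivative_C_mul]; ring
  · intro j k h
    rw [T_single, map_sub, map_add, map_smul, map_smul, map_smul, Θ_single, Θ_single, Θ_single,
      Θ_single]
    rw [if_neg (show ¬ (2 * (j - 1) + k = n + 1) by omega), smul_zero, zero_add]
    have e1 : (k : ℚ) • (if 2 * (j + 1) + (k - 1) = n + 1 then (X : ℚ[X]) ^ (k - 1) else 0)
        = (k : ℚ) • (if 2 * j + k = n then (X : ℚ[X]) ^ (k - 1) else 0) := by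
      rcases k with _ | k
      · simp
      · have : (2 * (j + 1) + (k + 1 - 1) = n + 1) = (2 * j + (k + 1) = n) := by
          simp only [Nat.add_sub_cancel, eq_iff_iff]; omega
        simp only [this]
    have e2 : (2 * j + (k + 1) = n + 1) = (2 * j + k = n) := by
      simp only [eq_iff_iff]; omega
    rw [e1]
    simp only [e2]
    split_ifs with hn
    · simp only [Dop, derivative_X_pow, smul_eq_C_mul]
      rcases k with _ | k
      · simp
      · simp only [Nat.add_sub_cancel]
        push_cast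
        simp only [map_add, map_natCast, map_one]
        ring
    · simp [Dop]

/-- The polynomials `E n`. -/
noncomputable def E (n : ℕ) : ℚ[X] := Dop^[n] 1

lemma iterate_mem_W (n : ℕ) : (⇑T)^[n] δ ∈ W n := by
  induction n with
  | zero => exact single_mem_W (by omega)
  | succ n ih => rw [Function.iterate_succ_apply']; exact T_mem_W ih

lemma Θ_iterate (n : ℕ) : Θ n ((⇑T)^[n] δ) = E n := by
  induction n with
  | zero => simp [δ, Θ_single, E]
  | succ n ih =>
    rw [Function.iterate_succ_apply', Θ_T (iterate_mem_W n), ih, E, E,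
      Function.iterate_succ_apply']

/-- The functional `E ↦ (1/2) ∫_{-1}^{1} E(u) du`. -/
noncomputable def L : ℚ[X] →ₗ[ℚ] ℚ :=
  Polynomial.lsum (fun k => (if Even k then 1 / ((k : ℚ) + 1) else 0) • LinearMap.id)

lemma L_X_pow (k : ℕ) : L (X ^ k) = if Even k then 1 / ((k : ℚ) + 1) else 0 := by
  rw [L, Polynomial.lsum_apply, ← monomial_one_right_eq_X_pow, Polynomial.sum_monomial_index]
  · split_ifs <;> simp
  · simp

lemma ρ_eq {m : ℕ} {f : (ℕ × ℕ) →₀ ℚ} (hf : f ∈ W (2 * m)) : ρ m f = L (Θ (2 * m) f) := by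
  refine W_induction (Q := fun f => ρ m f = L (Θ (2 * m) f)) hf ?_ ?_ ?_ ?_
  · simp
  · intro f g hf hg
    rw [map_add, map_add, hf, hg, map_add]
  · intro q f hf
    rw [map_smul, map_smul, hf, map_smul]
  · intro j k h
    rw [ρ_single, Θ_single]
    by_cases hn : 2 * j + k = 2 * m
    · rw [if_pos hn, R_top _ _ _ hn, L_X_pow, if_pos]
      rw [Nat.even_iff]; omega
    · rw [if_neg hn, R_low _ _ _ _ (by omega), map_zero]

lemma bCoeff_eq_L (m : ℕ) : bCoeff (2 * m) m = L (E (2 * m)) := by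
  rw [bCoeff_eq, ρ_eq (iterate_mem_W _), Θ_iterate]

/-! ### Generating functions -/

/-- Coefficientwise derivative with respect to `u`. -/
noncomputable def du (F : PowerSeries ℚ[X]) : PowerSeries ℚ[X] :=
  PowerSeries.mk (fun n => derivative (PowerSeries.coeff n F))

lemma coeff_du (F : PowerSeries ℚ[X]) (n : ℕ) :
    PowerSeries.coeff n (du F) = derivative (PowerSeries.coeff n F) := by
  simp [du]

lemma du_add (F G : PowerSeries ℚ[X]) : du (F + G) = du F + du G := by
  ext1 n; simp [coeff_du]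

lemma du_sub (F G : PowerSeries ℚ[X]) : du (F - G) = du F - du G := by
  ext1 n; simp [coeff_du]

lemma du_mul (F G : PowerSeries ℚ[X]) : du (F * G) = du F * G + F * du G := by
  ext1 n
  rw [coeff_du, PowerSeries.coeff_mul, map_add, PowerSeries.coeff_mul, PowerSeries.coeff_mul,
    derivative_sum, ← Finset.sum_add_distrib]
  apply Finset.sum_congr rfl
  intro p _
  rw [derivative_mul, coeff_du, coeff_du]

/-- Embedding of scalar power series. -/
noncomputable def ι (s : PowerSeries ℚ) : PowerSeries ℚ[X] := PowerSeries.map C s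

lemma du_ι (s : PowerSeries ℚ) : du (ι s) = 0 := by
  ext1 n; simp [coeff_du, ι]

/-- The variable `u` as a constant power series. -/
noncomputable def uu : PowerSeries ℚ[X] := PowerSeries.C (X : ℚ[X])

lemma du_uu : du uu = 1 := by
  ext1 n
  rw [coeff_du, uu, PowerSeries.coeff_C, PowerSeries.coeff_one]
  split_ifs <;> simp

lemma du_one : du 1 = 0 := by
  ext1 n
  rw [coeff_du, PowerSeries.coeff_one]
  split_ifs <;> simp

/-- Derivative in the power series variable. -/
noncomputable abbrev dt (F : PowerSeries ℚ[X]) : PowerSeries ℚ[X] :=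
  PowerSeries.derivative ℚ[X] F

lemma dt_ι (s : PowerSeries ℚ) : dt (ι s) = ι (PowerSeries.derivative ℚ s) := by
  ext1 n
  simp [dt, ι, PowerSeries.coeff_derivative]

lemma dt_uu : dt uu = 0 := by
  simp [dt, uu]

/-- `exp t`. -/
noncomputable def ep : PowerSeries ℚ := PowerSeries.exp ℚ

/-- `exp (-t)`. -/
noncomputable def en : PowerSeries ℚ := PowerSeries.evalNegHom (PowerSeries.exp ℚ)

lemma ep_mul_en : ep * en = 1 := PowerSeries.exp_mul_exp_neg_eq_one

lemma two_eq (R : Type) [CommRing R] : (2 : PowerSeries R) = PowerSeries.C 2 :=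
  (map_ofNat PowerSeries.C 2).symm

lemma constantCoeff_ep : PowerSeries.constantCoeff ep = 1 := PowerSeries.constantCoeff_exp

lemma constantCoeff_en : PowerSeries.constantCoeff en = 1 := by
  have h := congrArg PowerSeries.constantCoeff ep_mul_en
  rw [map_mul, constantCoeff_ep, one_mul, map_one] at h
  exact h

lemma d_ep : PowerSeries.derivative ℚ ep = ep := PowerSeries.derivative_exp ℚ

lemma d_en : PowerSeries.derivative ℚ en = -en := by
  have h : PowerSeries.derivative ℚ (ep * en) = 0 := by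
    rw [ep_mul_en]; simp
  rw [Derivation.leibniz, d_ep] at h
  simp only [smul_eq_mul] at h
  have h2 := ep_mul_en
  have : en * (ep * PowerSeries.derivative ℚ en + en * ep) = 0 := by rw [h, mul_zero]
  linear_combination this - (PowerSeries.derivative ℚ en + en) * h2

/-- The generating function `∑ E n t^n / n!`. -/
noncomputable def G : PowerSeries ℚ[X] :=
  PowerSeries.mk (fun n => C (1 / (n.factorial : ℚ)) * E n)

lemma E_succ (n : ℕ) : E (n + 1) = (1 - X ^ 2) * derivative (E n) - X * E n := by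
  rw [E, Function.iterate_succ_apply']; rfl

lemma dt_G : dt G = (1 - uu ^ 2) * du G - uu * G := by
  ext1 n
  have h1 : (1 - uu ^ 2) * du G = PowerSeries.C ((1 : ℚ[X]) - X ^ 2) * du G := by
    simp [uu]
  rw [dt, PowerSeries.coeff_derivative, map_sub, h1, uu, PowerSeries.coeff_C_mul,
    PowerSeries.coeff_C_mul, coeff_du, G, PowerSeries.coeff_mk, PowerSeries.coeff_mk, E_succ,
    derivative_C_mul]
  have h2 : C (1 / ((n + 1).factorial : ℚ)) * ((n : ℚ[X]) + 1) = C (1 / (n.factorial : ℚ)) := by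
    have h3 : ((n : ℚ[X]) + 1) = C ((n : ℚ) + 1) := by simp
    rw [h3, ← C_mul]
    congr 1
    rw [Nat.factorial_succ]
    have h4 : (n : ℚ) + 1 ≠ 0 := by positivity
    have h5 : (n.factorial : ℚ) ≠ 0 := by positivity
    push_cast
    field_simp
  linear_combination ((1 - X ^ 2) * derivative (E n) - X * E n) * h2

/-- `2 (cosh t + u sinh t) G`. -/
noncomputable def WW : PowerSeries ℚ[X] := (ι ep * (1 + uu) + ι en * (1 - uu)) * G

lemma du_WW : du WW = (ι ep - ι en) * G + (ι ep * (1 + uu) + ι en * (1 - uu)) * du G := by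
  rw [WW, du_mul, du_add, du_mul, du_mul, du_ι, du_ι, du_add, du_sub, du_one, du_uu]
  ring

lemma dt_WW : dt WW = (1 - uu ^ 2) * du WW := by
  have h : dt WW = (ι ep * (1 + uu) - ι en * (1 - uu)) * G
      + (ι ep * (1 + uu) + ι en * (1 - uu)) * dt G := by
    have e1 : dt (ι ep) = ι ep := by rw [dt_ι, d_ep]
    have e2 : dt (ι en) = - ι en := by rw [dt_ι, d_en]; simp [ι]
    have e3 := dt_uu
    simp only [dt] at e1 e2 e3
    simp only [WW, dt, Derivation.leibniz, map_add, map_sub, e1, e2, e3, smul_eq_mul,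
      Derivation.map_one_eq_zero]
    ring
  rw [h, dt_G, du_WW]
  ring

lemma WW_eq : WW = 2 := by
  have h0 : PowerSeries.coeff 0 WW = 2 := by
    have e1 : PowerSeries.constantCoeff (ι ep) = 1 := by
      rw [ι, ← PowerSeries.coeff_zero_eq_constantCoeff_apply, PowerSeries.coeff_map,
        PowerSeries.coeff_zero_eq_constantCoeff_apply, constantCoeff_ep, map_one]
    have e2 : PowerSeries.constantCoeff (ι en) = 1 := by
      rw [ι, ← PowerSeries.coeff_zero_eq_constantCoeff_apply, PowerSeries.coeff_map,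
        PowerSeries.coeff_zero_eq_constantCoeff_apply, constantCoeff_en, map_one]
    rw [PowerSeries.coeff_zero_eq_constantCoeff_apply, WW, map_mul, map_add, map_mul, map_mul,
      e1, e2]
    simp [G, E, uu]
    ring
  have hrec : ∀ n, PowerSeries.coeff (n + 1) WW * ((n : ℚ[X]) + 1)
      = (1 - X ^ 2) * derivative (PowerSeries.coeff n WW) := by
    intro n
    have h := congrArg (PowerSeries.coeff n) dt_WW
    have h1 : (1 - uu ^ 2) * du WW = PowerSeries.C ((1 : ℚ[X]) - X ^ 2) * du WW := by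
      simp [uu]
    rw [dt, PowerSeries.coeff_derivative, h1, PowerSeries.coeff_C_mul, coeff_du] at h
    exact h
  have hne : ∀ n : ℕ, ((n : ℚ[X]) + 1) ≠ 0 := fun n => Nat.cast_add_one_ne_zero n
  have h1 : ∀ n, PowerSeries.coeff (n + 1) WW = 0 := by
    intro n
    induction n with
    | zero =>
      have h := hrec 0
      rw [h0] at h
      have h2 : derivative (2 : ℚ[X]) = 0 := by simp
      rw [h2, mul_zero] at h
      exact (mul_eq_zero.1 h).resolve_right (hne 0)
    | succ n ih =>
      have h := hrec (n + 1)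
      rw [ih, derivative_zero, mul_zero] at h
      exact (mul_eq_zero.1 h).resolve_right (hne (n + 1))
  ext1 n
  rcases n with _ | n
  · rw [h0, two_eq]
    simp
  · rw [h1, two_eq, PowerSeries.coeff_C,
      if_neg (Nat.succ_ne_zero n)]

lemma du_two : du 2 = 0 := by
  ext1 n
  rw [coeff_du, two_eq, PowerSeries.coeff_C]
  split_ifs
  · simp
  · simp

/-- `2 sinh t G`. -/
noncomputable def HH : PowerSeries ℚ[X] := (ι ep - ι en) * G

/-- `2 (sinh t + u cosh t) G`. -/
noncomputable def VV : PowerSeries ℚ[X] := (ι ep * (1 + uu) - ι en * (1 - uu)) * G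

lemma dt_HH : dt HH = du VV := by
  have e1 : dt (ι ep) = ι ep := by rw [dt_ι, d_ep]
  have e2 : dt (ι en) = - ι en := by rw [dt_ι, d_en]; simp [ι]
  have h : dt HH = (ι ep + ι en) * G + (ι ep - ι en) * dt G := by
    simp only [dt] at e1 e2
    simp only [HH, dt, Derivation.leibniz, map_sub, e1, e2, smul_eq_mul]
    ring
  have hV : du VV = (ι ep + ι en) * G + (ι ep * (1 + uu) - ι en * (1 - uu)) * du G := by
    rw [VV, du_mul, du_sub, du_mul, du_mul, du_ι, du_ι, du_add, du_sub, du_one, du_uu]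
    ring
  have hW : du WW = 0 := by rw [WW_eq, du_two]
  rw [du_WW] at hW
  rw [h, hV, dt_G]
  linear_combination (-uu) * hW

/-- The functional `L` applied coefficientwise. -/
noncomputable def LL (F : PowerSeries ℚ[X]) : PowerSeries ℚ :=
  PowerSeries.mk (fun n => L (PowerSeries.coeff n F))

lemma coeff_LL (F : PowerSeries ℚ[X]) (n : ℕ) :
    PowerSeries.coeff n (LL F) = L (PowerSeries.coeff n F) := by
  simp [LL]

lemma LL_ι_mul (s : PowerSeries ℚ) (F : PowerSeries ℚ[X]) : LL (ι s * F) = s * LL F := by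
  ext n
  rw [coeff_LL, PowerSeries.coeff_mul, PowerSeries.coeff_mul, map_sum]
  apply Finset.sum_congr rfl
  intro p _
  rw [ι, PowerSeries.coeff_map, coeff_LL, ← smul_eq_C_mul, map_smul, smul_eq_mul]

lemma LL_sub (F F' : PowerSeries ℚ[X]) : LL (F - F') = LL F - LL F' := by
  ext n; simp [coeff_LL]

lemma LL_dt (F : PowerSeries ℚ[X]) : LL (dt F) = PowerSeries.derivative ℚ (LL F) := by
  ext n
  rw [coeff_LL, dt, PowerSeries.coeff_derivative, PowerSeries.coeff_derivative, coeff_LL]
  have h : PowerSeries.coeff (n + 1) F * ((n : ℚ[X]) + 1)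
      = ((n : ℚ) + 1) • PowerSeries.coeff (n + 1) F := by
    rw [smul_eq_C_mul]; simp; ring
  rw [h, map_smul, smul_eq_mul, mul_comm]

lemma L_derivative (p : ℚ[X]) : L (derivative p) = (p.eval 1 - p.eval (-1)) / 2 := by
  induction p using Polynomial.induction_on' with
  | add p q hp hq => rw [derivative_add, map_add, hp, hq, eval_add, eval_add]; ring
  | monomial n r =>
    rw [← C_mul_X_pow_eq_monomial, derivative_C_mul, ← smul_eq_C_mul, map_smul]
    rcases n with _ | n
    · simp
    · rw [derivative_X_pow, ← smul_eq_C_mul, map_smul, Nat.add_sub_cancel, L_X_pow]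
      simp only [eval_mul, eval_C, eval_pow, eval_X, one_pow, smul_eq_mul]
      rcases Nat.even_or_odd n with h | h
      · rw [if_pos h, pow_succ, h.neg_one_pow]
        have : (n : ℚ) + 1 ≠ 0 := by positivity
        push_cast
        field_simp
        ring
      · rw [if_neg (Nat.not_even_iff_odd.2 h), pow_succ, h.neg_one_pow]
        ring

/-- Evaluation at `u = r`. -/
noncomputable def ev (r : ℚ) : PowerSeries ℚ[X] →+* PowerSeries ℚ :=
  PowerSeries.map (Polynomial.evalRingHom r)

lemma ev_ι (r : ℚ) (s : PowerSeries ℚ) : ev r (ι s) = s := by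
  ext n; simp [ev, ι]

lemma ev_uu (r : ℚ) : ev r uu = PowerSeries.C r := by
  simp [ev, uu]

lemma LL_du (F : PowerSeries ℚ[X]) :
    LL (du F) = PowerSeries.C (1 / 2) * (ev 1 F - ev (-1) F) := by
  ext n
  rw [coeff_LL, coeff_du, L_derivative, PowerSeries.coeff_C_mul, map_sub, ev, ev,
    PowerSeries.coeff_map, PowerSeries.coeff_map]
  simp only [coe_evalRingHom]
  ring

lemma LL_du_VV : LL (du VV) = 2 := by
  have h1 := congrArg (ev 1) WW_eq
  have h2 := congrArg (ev (-1)) WW_eq
  simp only [WW, map_mul, map_add, map_sub, ev_ι, ev_uu, map_one, map_ofNat, map_neg] at h1 h2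
  have h3 : ev 1 VV = 2 := by
    simp only [VV, map_mul, map_add, map_sub, ev_ι, ev_uu, map_one]
    linear_combination h1
  have h4 : ev (-1) VV = -2 := by
    simp only [VV, map_mul, map_add, map_sub, ev_ι, ev_uu, map_one, map_neg]
    linear_combination -h2
  rw [LL_du, h3, h4]
  have h5 : (PowerSeries.C (1 / 2 : ℚ)) * 2 = 1 := by
    rw [two_eq, ← map_mul]
    norm_num
  linear_combination 2 * h5

lemma sinh_mul_LL_G : (ep - en) * LL G = 2 * PowerSeries.X := by
  have h : LL HH = (ep - en) * LL G := by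
    rw [HH, sub_mul, LL_sub, LL_ι_mul, LL_ι_mul, sub_mul]
  rw [← h]
  apply PowerSeries.derivative.ext
  · rw [← LL_dt, dt_HH, LL_du_VV, two_eq, Derivation.leibniz]
    simp
  · rw [h]
    simp [constantCoeff_ep, constantCoeff_en]

/-! ### Bernoulli numbers -/

/-- The generating function of the Bernoulli numbers. -/
noncomputable def Be : PowerSeries ℚ := bernoulliPowerSeries ℚ

lemma Be_mul : Be * (ep - 1) = PowerSeries.X := bernoulliPowerSeries_mul_exp_sub_one ℚ

lemma Be2_mul : PowerSeries.rescale (2 : ℚ) Be * (ep ^ 2 - 1) = 2 * PowerSeries.X := by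
  have h := congrArg (PowerSeries.rescale (2 : ℚ)) Be_mul
  rw [map_mul, map_sub, map_one, PowerSeries.rescale_X] at h
  have h2 : PowerSeries.rescale (2 : ℚ) ep = ep ^ 2 := by
    have := PowerSeries.exp_pow_eq_rescale_exp (A := ℚ) 2
    rw [ep, this]
    norm_num
  rw [h2] at h
  rw [h, two_eq]

lemma LL_G_eq : LL G = 2 * Be - PowerSeries.rescale (2 : ℚ) Be := by
  have h1 := sinh_mul_LL_G
  have h2 : (ep - en) * (2 * Be - PowerSeries.rescale (2 : ℚ) Be) = 2 * PowerSeries.X := by
    have h3 := Be_mul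
    have h4 := Be2_mul
    have h5 := ep_mul_en
    have h6 : ep * ((ep - en) * (2 * Be - PowerSeries.rescale (2 : ℚ) Be) - 2 * PowerSeries.X)
        = 0 := by
      linear_combination (2 * ep + 2) * h3 - h4 - (2 * Be - PowerSeries.rescale (2 : ℚ) Be) * h5
    have h7 : ep ≠ 0 := by
      intro h
      rw [h, zero_mul] at h5
      exact zero_ne_one h5
    exact sub_eq_zero.1 ((mul_eq_zero.1 h6).resolve_left h7)
  have h8 : ep - en ≠ 0 := by
    intro h
    rw [h, zero_mul] at h1
    have := congrArg (PowerSeries.coeff 1) h1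
    rw [two_eq, PowerSeries.coeff_C_mul] at this
    simp at this
  exact mul_left_cancel₀ h8 (h1.trans h2.symm)

lemma L_E (n : ℕ) : L (E n) = (2 - 2 ^ n) * _root_.bernoulli n := by
  have h := congrArg (PowerSeries.coeff n) LL_G_eq
  rw [coeff_LL, G, PowerSeries.coeff_mk, ← smul_eq_C_mul, map_smul, map_sub,
    two_eq, PowerSeries.coeff_C_mul,
    PowerSeries.coeff_rescale, Be, bernoulliPowerSeries, PowerSeries.coeff_mk] at h
  have h5 : (n.factorial : ℚ) ≠ 0 := by positivity
  simp only [smul_eq_mul, eq_ratCast, Rat.cast_id] at h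
  field_simp at h
  linear_combination h

/-! ### Consistency checks: the definitions agree with the setting -/

/-- `D` is the only derivation with `D z = 1`, `D a = b` and `D b = z a`. -/
theorem D_unique (D' : Derivation ℚ A A) (hz : D' z = 1) (ha : D' a = b) (hb : D' b = z * a) :
    D' = D := by
  have hi : D' aInv = D aInv := by
    have h1 : D' (a * aInv) = 0 := by rw [a_mul_aInv]; exact Derivation.map_one_eq_zero D'
    have h2 : D (a * aInv) = 0 := by rw [a_mul_aInv]; exact Derivation.map_one_eq_zero D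
    rw [Derivation.leibniz, ha] at h1
    rw [Derivation.leibniz, D_a] at h2
    simp only [smul_eq_mul] at h1 h2
    have h3 := a_mul_aInv
    linear_combination aInv * (h1 - h2) - (D' aInv - D aInv) * h3
  have key : ∀ j k e, D' (mono j k e) = D (mono j k e) := by
    have hz' : ∀ j : ℕ, D' (mono j 0 0) = D (mono j 0 0) := by
      intro j
      induction j with
      | zero =>
        have : mono 0 0 0 = 1 := rfl
        rw [this, Derivation.map_one_eq_zero, Derivation.map_one_eq_zero]
      | succ j ih =>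
        have : mono (j + 1) 0 0 = mono j 0 0 * z := by simp [z, mono_mul]
        rw [this, Derivation.leibniz, Derivation.leibniz, ih, hz, D_z]
    have hb' : ∀ k : ℕ, D' (mono 0 k 0) = D (mono 0 k 0) := by
      intro k
      induction k with
      | zero =>
        have : mono 0 0 0 = 1 := rfl
        rw [this, Derivation.map_one_eq_zero, Derivation.map_one_eq_zero]
      | succ k ih =>
        have : mono 0 (k + 1) 0 = mono 0 k 0 * b := by simp [b, mono_mul]
        rw [this, Derivation.leibniz, Derivation.leibniz, ih, hb, D_b]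
    have ha' : ∀ e : ℕ, D' (mono 0 0 (e : ℤ)) = D (mono 0 0 (e : ℤ)) := by
      intro e
      induction e with
      | zero =>
        have : mono 0 0 ((0 : ℕ) : ℤ) = 1 := rfl
        rw [this, Derivation.map_one_eq_zero, Derivation.map_one_eq_zero]
      | succ e ih =>
        have : mono 0 0 ((e + 1 : ℕ) : ℤ) = mono 0 0 (e : ℤ) * a := by simp [a, mono_mul]
        rw [this, Derivation.leibniz, Derivation.leibniz, ih, ha, D_a]
    have hn' : ∀ e : ℕ, D' (mono 0 0 (-(e : ℤ))) = D (mono 0 0 (-(e : ℤ))) := by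
      intro e
      induction e with
      | zero =>
        have : mono 0 0 (-((0 : ℕ) : ℤ)) = 1 := rfl
        rw [this, Derivation.map_one_eq_zero, Derivation.map_one_eq_zero]
      | succ e ih =>
        have : mono 0 0 (-((e + 1 : ℕ) : ℤ)) = mono 0 0 (-(e : ℤ)) * aInv := by
          rw [aInv, mono_mul]; congr 1; push_cast; ring
        rw [this, Derivation.leibniz, Derivation.leibniz, ih, hi]
    intro j k e
    have h : mono j k e = mono j 0 0 * (mono 0 k 0 * mono 0 0 e) := by simp [mono_mul]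
    have he : D' (mono 0 0 e) = D (mono 0 0 e) := by
      obtain ⟨n, rfl | rfl⟩ := Int.eq_nat_or_neg e
      · exact ha' n
      · exact hn' n
    rw [h, Derivation.leibniz, Derivation.leibniz, Derivation.leibniz, Derivation.leibniz, hz',
      hb', he]
  ext1 x
  induction x using A_induction with
  | hz => rw [map_zero, map_zero]
  | hadd x y hx hy => rw [map_add, map_add, hx, hy]
  | hsmul q x hx => rw [Derivation.map_smul, Derivation.map_smul, hx]
  | hm j k e => exact key j k e

/-- The expansion of `a⁻¹ D^n (a⁻¹)` in the monomials `z^j b^k a^(-(k+2))`. -/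
theorem expansion (n : ℕ) :
    P n = ∑ᶠ p : ℕ × ℕ, c n p.1 p.2 • mono p.1 p.2 (-((p.2 : ℤ) + 2)) := by
  set f := (⇑T)^[n] δ with hf
  have h1 : (∑ᶠ p : ℕ × ℕ, c n p.1 p.2 • mono p.1 p.2 (-((p.2 : ℤ) + 2)))
      = ∑ p ∈ f.support, c n p.1 p.2 • mono p.1 p.2 (-((p.2 : ℤ) + 2)) := by
    apply finsum_eq_sum_of_support_subset
    intro p hp
    rw [Function.mem_support] at hp
    rw [Finset.mem_coe, Finsupp.mem_support_iff]
    intro h0
    apply hp
    rw [c_eq]
    change f (p.1, p.2) • mono p.1 p.2 (-((p.2 : ℤ) + 2)) = 0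
    rw [show f (p.1, p.2) = 0 from h0, zero_smul]
  rw [h1, P_eq, Φ, Finsupp.linearCombination_apply, Finsupp.sum]
  apply Finset.sum_congr rfl
  intro p _
  rw [c_eq]

lemma R_support (k : ℕ) : ∀ (j m : ℕ) (q : ℕ × ℕ × ℕ), q.2 ≠ (0, m) → R j k (k + m) q = 0 := by
  induction k using Nat.strong_induction_on with
  | _ k ih =>
    intro j m q hq
    match k, ih with
    | 0, _ =>
      rw [R, sym, Finsupp.single_eq_of_ne]
      rintro rfl
      apply hq
      simp
    | 1, ih =>
      rw [R, Finsupp.smul_apply, show 1 + m - 1 = 0 + m by omega, ih 0 (by omega) _ _ _ hq,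
        smul_zero]
    | k + 2, ih =>
      rw [R, Finsupp.add_apply, Finsupp.smul_apply, Finsupp.smul_apply,
        show k + 2 + m - 1 = k + 1 + m by omega, show k + 2 + m - 2 = k + m by omega,
        ih (k + 1) (by omega) _ _ _ hq, ih k (by omega) _ _ _ hq, smul_zero, smul_zero, add_zero]

/-- The reduced form of `∑_{j,k} c n j k R [j, k, k + 2]` is `∑_j bCoeff n j [j, 0, 2]`. -/
theorem reduction (n : ℕ) :
    ∑ᶠ p : ℕ × ℕ, c n p.1 p.2 • R p.1 p.2 (p.2 + 2) = ∑ᶠ j : ℕ, bCoeff n j • sym j 0 2 := by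
  have hS : ∀ q : ℕ × ℕ × ℕ, q.2 ≠ (0, 2) →
      (∑ᶠ p : ℕ × ℕ, c n p.1 p.2 • R p.1 p.2 (p.2 + 2)) q = 0 := by
    intro q hq
    have h0 : (0 : Sym) q = 0 := rfl
    refine finsum_induction (p := fun x : Sym => x q = 0) h0 ?_ ?_
    · intro x y hx hy
      rw [Finsupp.add_apply, hx, hy, add_zero]
    · intro p
      rw [Finsupp.smul_apply, R_support _ _ _ _ hq, smul_zero]
  have hb : ∀ j, bCoeff n j = (∑ᶠ p : ℕ × ℕ, c n p.1 p.2 • R p.1 p.2 (p.2 + 2)) (j, 0, 2) :=
    fun _ => rfl
  generalize (∑ᶠ p : ℕ × ℕ, c n p.1 p.2 • R p.1 p.2 (p.2 + 2)) = S at hS hb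
  have hsub : (Function.support fun j => bCoeff n j • sym j 0 2)
      ⊆ ((S.support.image Prod.fst : Finset ℕ) : Set ℕ) := by
    intro j hj
    rw [Function.mem_support] at hj
    simp only [Finset.coe_image, Set.mem_image, Finset.mem_coe, Finsupp.mem_support_iff]
    refine ⟨(j, 0, 2), ?_, rfl⟩
    intro h
    apply hj
    rw [hb, h, zero_smul]
  rw [finsum_eq_sum_of_support_subset _ hsub]
  ext q
  rw [Finsupp.finsetSum_apply]
  by_cases hq : q.2 = (0, 2)
  · obtain ⟨i, q2⟩ := q
    simp only at hq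
    subst hq
    rw [Finset.sum_eq_single i]
    · rw [Finsupp.smul_apply, sym, Finsupp.single_eq_same, hb]
      simp
    · intro j _ hj
      rw [Finsupp.smul_apply, sym, Finsupp.single_eq_of_ne, smul_zero]
      intro h
      exact hj (Prod.mk.inj h).1.symm
    · intro hi
      rw [Finsupp.smul_apply, hb]
      simp only [Finset.mem_image, Finsupp.mem_support_iff, Prod.exists] at hi
      have : S (i, 0, 2) = 0 := by
        by_contra hne
        exact hi ⟨i, 0, 2, hne, rfl⟩
      rw [this, zero_smul]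
  · rw [hS q hq]
    symm
    apply Finset.sum_eq_zero
    intro j _
    rw [Finsupp.smul_apply, sym, Finsupp.single_eq_of_ne, smul_zero]
    rintro rfl
    exact hq rfl

/-- The leading coefficients `b_{2m,m}` of the Airy moment polynomials `p_{2m}` are
`(2 - 2^(2m)) B_{2m}`. -/
theorem result (m : ℕ) : bCoeff (2 * m) m = (2 - 2 ^ (2 * m)) * _root_.bernoulli (2 * m) := by
  rw [bCoeff_eq_L, L_E]

end Pool.Agent.Results.MP_c1403d_pr.LeadingCoefficients
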